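import Pool.Agent.W2helper22.ET.Stm

set_option autoImplicit false

/-!
# Piece CLS of project ETU: a class of triangles and a shape
-/

namespace Pool.Agent.W2helper15.ET

open Finset Pool.Agent.W2helper22.SM Pool.Agent.W2helper22.ET

section gen

set_option linter.unusedSectionVars false

variable {A α β : Type*} [DecidableEq A] [DecidableEq α] [DecidableEq β]

/-- the degree -/
def dg (π : A → α) (S : Finset A) (x : α) : ℕ := (S.filter fun p => π p = x).card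

lemma dg_ne (π : A → α) {S : Finset A} {p : A} (hp : p ∈ S) : dg π S (π p) ≠ 0 := by
  have h : p ∈ S.filter fun q => π q = π p := mem_filter.2 ⟨hp, rfl⟩
  exact (card_pos.2 ⟨p, h⟩).ne'

lemma dg_le_card [Fintype β] (π : A → α) (π' : A → β) (h : ∀ p q, π p = π q → π' p = π' q → p = q)
    (S : Finset A) (x : α) : dg π S x ≤ Fintype.card β := by
  unfold dg
  rw [← card_univ]
  refine card_le_card_of_injOn π' (fun p _ => mem_coe.2 (mem_univ _)) ?_
  intro p hp q hq hpq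
  have h1 := (mem_filter.1 (mem_coe.1 hp)).2
  have h2 := (mem_filter.1 (mem_coe.1 hq)).2
  exact h p q (h1.trans h2.symm) hpq

lemma dg_le (π : A → α) {S T : Finset A} (h : T ⊆ S) {l : ℕ}
    (hl : ∀ p ∈ T, Nat.log 2 (dg π S (π p)) = l) (x : α) : dg π T x ≤ 2 ^ (l + 1) := by
  by_cases hx : ∃ p ∈ T, π p = x
  · obtain ⟨p, hp, rfl⟩ := hx
    have h1 : dg π T (π p) ≤ dg π S (π p) := card_le_card (filter_subset_filter _ h)
    have h2 : dg π S (π p) < 2 ^ (Nat.log 2 (dg π S (π p)) + 1) :=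
      Nat.lt_pow_succ_log_self (by norm_num) _
    rw [hl p hp] at h2
    exact (h1.trans_lt h2).le
  · have h1 : T.filter (fun p => π p = x) = ∅ :=
      filter_eq_empty_iff.2 fun p hp hpx => hx ⟨p, hp, hpx⟩
    unfold dg
    rw [h1]
    simp

lemma img_mul (π : A → α) {S T : Finset A} (h : T ⊆ S) {l : ℕ}
    (hl : ∀ p ∈ T, Nat.log 2 (dg π S (π p)) = l) : (T.image π).card * 2 ^ l ≤ S.card := by
  have h1 : ∀ x ∈ T.image π, 2 ^ l ≤ dg π S x := by
    intro x hx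
    obtain ⟨p, hp, rfl⟩ := mem_image.1 hx
    rw [← hl p hp]
    exact Nat.pow_log_le_self 2 (dg_ne π (h hp))
  calc (T.image π).card * 2 ^ l ≤ ∑ x ∈ T.image π, dg π S x := by
        rw [← smul_eq_mul]; exact card_nsmul_le_sum _ _ _ h1
    _ ≤ ∑ x ∈ S.image π, dg π S x := sum_le_sum_of_subset (image_subset_image h)
    _ = S.card := (card_eq_sum_card_image π S).symm

lemma card_le_img (π : A → α) {S T : Finset A} (h : T ⊆ S) {l : ℕ}
    (hl : ∀ p ∈ T, Nat.log 2 (dg π S (π p)) = l) : T.card ≤ (T.image π).card * 2 ^ (l + 1) := by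
  rw [card_eq_sum_card_image π T, ← smul_eq_mul]
  exact sum_le_card_nsmul _ _ _ fun x _ => dg_le π h hl x

lemma pair_le (π : A → α) (π' : A → β) (h : ∀ p q, π p = π q → π' p = π' q → p = q)
    (T : Finset A) : T.card ≤ (T.image π).card * (T.image π').card := by
  rw [← card_product]
  refine card_le_card_of_injOn (fun p => (π p, π' p)) (fun p hp => ?_) fun p _ q _ hpq => ?_
  · exact mem_coe.2 (mem_product.2 ⟨mem_image_of_mem _ hp, mem_image_of_mem _ hp⟩)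
  · exact h p q (Prod.ext_iff.1 hpq).1 (Prod.ext_iff.1 hpq).2

end gen

/-- the Loomis-Whitney inequality -/
lemma lw {X Y Z : Type*} [DecidableEq X] [DecidableEq Y] [DecidableEq Z]
    (T : Finset (X × Y × Z)) :
    T.card ^ 2 ≤ (T.image fun p => (p.1, p.2.1)).card *
      ((T.image fun p => (p.1, p.2.2)).card * (T.image fun p => (p.2.1, p.2.2)).card) := by
  have h1 := card_eq_sum_card_image (fun p : X × Y × Z => (p.1, p.2.1)) T
  have h3 : ∑ x ∈ T.image (fun p => (p.1, p.2.1)),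
      (T.filter fun p => (p.1, p.2.1) = x).card ^ 2 ≤
      (T.image fun p => (p.1, p.2.2)).card * (T.image fun p => (p.2.1, p.2.2)).card := by
    have h4 : ((T ×ˢ T).filter fun r => (r.1.1, r.1.2.1) = (r.2.1, r.2.2.1)).card =
        ∑ x ∈ T.image (fun p => (p.1, p.2.1)),
          (T.filter fun p => (p.1, p.2.1) = x).card ^ 2 := by
      rw [card_eq_sum_card_fiberwise (f := fun r => (r.1.1, r.1.2.1))
        (t := T.image (fun p => (p.1, p.2.1))) ?_]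
      · refine sum_congr rfl fun x _ => ?_
        rw [sq, ← card_product]
        congr 1
        ext r
        simp only [mem_filter, mem_product]
        constructor
        · rintro ⟨⟨⟨h5, h6⟩, h7⟩, h8⟩
          exact ⟨⟨h5, h8⟩, h6, h7 ▸ h8⟩
        · rintro ⟨⟨h5, h6⟩, h7, h8⟩
          exact ⟨⟨⟨h5, h7⟩, h6.trans h8.symm⟩, h6⟩
      · intro r hr
        have hr' := mem_filter.1 (mem_coe.1 hr)
        exact mem_coe.2 (mem_image.2 ⟨r.1, (mem_product.1 hr'.1).1, rfl⟩)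
    rw [← h4, ← card_product]
    refine card_le_card_of_injOn (fun r => ((r.1.1, r.1.2.2), (r.2.2.1, r.2.2.2))) ?_ ?_
    · intro r hr
      have hr' := mem_product.1 (mem_filter.1 (mem_coe.1 hr)).1
      exact mem_coe.2 (mem_product.2 ⟨mem_image.2 ⟨r.1, hr'.1, rfl⟩, mem_image.2 ⟨r.2, hr'.2, rfl⟩⟩)
    · rintro ⟨⟨a, b, c⟩, ⟨a', b', c'⟩⟩ hr ⟨⟨x, y, z⟩, ⟨x', y', z'⟩⟩ hs hrs
      have h5 := (mem_filter.1 (mem_coe.1 hr)).2
      have h6 := (mem_filter.1 (mem_coe.1 hs)).2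
      simp only [Prod.mk.injEq] at h5 h6 hrs ⊢
      obtain ⟨rfl, rfl⟩ := h5
      obtain ⟨rfl, rfl⟩ := h6
      obtain ⟨⟨rfl, rfl⟩, rfl, rfl⟩ := hrs
      simp
  calc T.card ^ 2 = (∑ x ∈ T.image (fun p => (p.1, p.2.1)),
        (T.filter fun p => (p.1, p.2.1) = x).card) ^ 2 := by rw [← h1]
    _ ≤ (T.image fun p => (p.1, p.2.1)).card * ∑ x ∈ T.image (fun p => (p.1, p.2.1)),
        (T.filter fun p => (p.1, p.2.1) = x).card ^ 2 := sq_sum_le_card_mul_sum_sq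
    _ ≤ _ := Nat.mul_le_mul_left _ h3

/-- the integral linear program -/
lemma shape (k a1 a2 a3 a12 a13 a23 : ℕ) (h1 : k ≤ a1 + a2 + a3) (h2 : k ≤ a12 + a3)
    (h3 : k ≤ a13 + a2) (h4 : k ≤ a23 + a1) (h5 : k ≤ a12 + a13) (h6 : k ≤ a12 + a23)
    (h7 : k ≤ a13 + a23) (h8 : 2 * k ≤ a12 + a13 + a23) :
    ∃ s1 s2 s3 : ℕ, s1 + s2 + s3 = k ∧ s1 ≤ a1 ∧ s2 ≤ a2 ∧ s3 ≤ a3 ∧ s1 + s2 ≤ a12 ∧
      s1 + s3 ≤ a13 ∧ s2 + s3 ≤ a23 := by
  obtain ⟨b1, hb1⟩ : ∃ b1, b1 = k - a23 := ⟨_, rfl⟩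
  obtain ⟨b2, hb2⟩ : ∃ b2, b2 = k - a13 := ⟨_, rfl⟩
  obtain ⟨b3, hb3⟩ : ∃ b3, b3 = k - a12 := ⟨_, rfl⟩
  obtain ⟨s1, hs1⟩ : ∃ s1, s1 = min a1 (k - b2 - b3) := ⟨_, rfl⟩
  obtain ⟨s2, hs2⟩ : ∃ s2, s2 = min a2 (k - s1 - b3) := ⟨_, rfl⟩
  have e1 : b1 + b2 + b3 ≤ k := by omega
  have e2 : b1 ≤ s1 := by omega
  have e3 : s1 + b2 + b3 ≤ k := by omega
  have e4 : b2 ≤ s2 := by omega
  have e5 : s1 + s2 + b3 ≤ k := by omega
  refine ⟨s1, s2, k - s1 - s2, by omega, by omega, by omega, ?_, by omega, by omega, by omega⟩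
  omega

section main

variable {n : ℕ}

/-- ordered triples of vertices -/
abbrev V (n : ℕ) : Type := Fin n × Fin n × Fin n

/-- the first vertex -/
def p1 (p : V n) : Fin n := p.1
/-- the second vertex -/
def p2 (p : V n) : Fin n := p.2.1
/-- the third vertex -/
def p3 (p : V n) : Fin n := p.2.2
/-- an edge -/
def p12 (p : V n) : Fin n × Fin n := (p.1, p.2.1)
/-- an edge -/
def p13 (p : V n) : Fin n × Fin n := (p.1, p.2.2)
/-- an edge -/
def p23 (p : V n) : Fin n × Fin n := (p.2.1, p.2.2)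

lemma i1_23 (p q : V n) (h : p1 p = p1 q) (h' : p23 p = p23 q) : p = q := by
  simp only [p1, p23, Prod.mk.injEq] at h h'
  exact Prod.ext h (Prod.ext h'.1 h'.2)
lemma i2_13 (p q : V n) (h : p2 p = p2 q) (h' : p13 p = p13 q) : p = q := by
  simp only [p2, p13, Prod.mk.injEq] at h h'
  exact Prod.ext h'.1 (Prod.ext h h'.2)
lemma i3_12 (p q : V n) (h : p3 p = p3 q) (h' : p12 p = p12 q) : p = q := by
  simp only [p3, p12, Prod.mk.injEq] at h h'
  exact Prod.ext h'.1 (Prod.ext h'.2 h)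
lemma i12_13 (p q : V n) (h : p12 p = p12 q) (h' : p13 p = p13 q) : p = q := by
  simp only [p12, p13, Prod.mk.injEq] at h h'
  exact Prod.ext h.1 (Prod.ext h.2 h'.2)
lemma i12_23 (p q : V n) (h : p12 p = p12 q) (h' : p23 p = p23 q) : p = q := by
  simp only [p12, p23, Prod.mk.injEq] at h h'
  exact Prod.ext h.1 (Prod.ext h.2 h'.2)
lemma i13_23 (p q : V n) (h : p13 p = p13 q) (h' : p23 p = p23 q) : p = q := by
  simp only [p13, p23, Prod.mk.injEq] at h h'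
  exact Prod.ext h.1 (Prod.ext h'.1 h.2)

lemma log_lt {x m : ℕ} (h0 : x ≠ 0) (h : x < 2 ^ m) : Nat.log 2 x < m := by
  have h1 := Nat.pow_log_le_self 2 h0
  exact (Nat.pow_lt_pow_iff_right (by norm_num : 1 < 2)).1 (h1.trans_lt h)

/-- the levels of a triple -/
def lev (S : Finset (V n)) (p : V n) : ℕ × ℕ × ℕ × ℕ × ℕ × ℕ :=
  (Nat.log 2 (dg p1 S (p1 p)), Nat.log 2 (dg p2 S (p2 p)), Nat.log 2 (dg p3 S (p3 p)),
    Nat.log 2 (dg p12 S (p12 p)), Nat.log 2 (dg p13 S (p13 p)), Nat.log 2 (dg p23 S (p23 p)))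

/-- a class of triangles with the same levels -/
lemma classes (S : Finset (V n)) : ∃ (T : Finset (V n)) (l1 l2 l3 l12 l13 l23 : ℕ), T ⊆ S ∧
    S.card ≤ 8 * bits n ^ 6 * T.card ∧
    (∀ p ∈ T, Nat.log 2 (dg p1 S (p1 p)) = l1) ∧ (∀ p ∈ T, Nat.log 2 (dg p2 S (p2 p)) = l2) ∧
    (∀ p ∈ T, Nat.log 2 (dg p3 S (p3 p)) = l3) ∧ (∀ p ∈ T, Nat.log 2 (dg p12 S (p12 p)) = l12) ∧
    (∀ p ∈ T, Nat.log 2 (dg p13 S (p13 p)) = l13) ∧
    (∀ p ∈ T, Nat.log 2 (dg p23 S (p23 p)) = l23) := by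
  have hn : n < 2 ^ bits n := Nat.lt_pow_succ_log_self (by norm_num) n
  have hn2 : n * n < 2 ^ (2 * bits n) := by
    rw [two_mul, pow_add]; exact Nat.mul_lt_mul'' hn hn
  have hb : 0 < bits n := Nat.succ_pos _
  obtain ⟨R, hR⟩ : ∃ R : Finset (ℕ × ℕ × ℕ × ℕ × ℕ × ℕ), R = range (2 * bits n) ×ˢ
    range (2 * bits n) ×ˢ range (2 * bits n) ×ˢ range (bits n) ×ˢ range (bits n) ×ˢ
    range (bits n) := ⟨_, rfl⟩
  have hRc : R.card = 8 * bits n ^ 6 := by
    rw [hR]; simp only [card_product, card_range]; ring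
  have hmap : ∀ p ∈ S, lev S p ∈ R := by
    intro p hp
    rw [hR]
    simp only [lev, mem_product, mem_range]
    have c1 : Fintype.card (Fin n × Fin n) = n * n := by simp
    have c2 : Fintype.card (Fin n) = n := by simp
    refine ⟨?_, ?_, ?_, ?_, ?_, ?_⟩
    · exact log_lt (dg_ne _ hp) ((dg_le_card p1 p23 i1_23 S _).trans_lt (by rw [c1]; exact hn2))
    · exact log_lt (dg_ne _ hp) ((dg_le_card p2 p13 i2_13 S _).trans_lt (by rw [c1]; exact hn2))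
    · exact log_lt (dg_ne _ hp) ((dg_le_card p3 p12 i3_12 S _).trans_lt (by rw [c1]; exact hn2))
    · exact log_lt (dg_ne _ hp) ((dg_le_card p12 p3 (fun p q h h' => i3_12 p q h' h) S _).trans_lt
        (by rw [c2]; exact hn))
    · exact log_lt (dg_ne _ hp) ((dg_le_card p13 p2 (fun p q h h' => i2_13 p q h' h) S _).trans_lt
        (by rw [c2]; exact hn))
    · exact log_lt (dg_ne _ hp) ((dg_le_card p23 p1 (fun p q h h' => i1_23 p q h' h) S _).trans_lt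
        (by rw [c2]; exact hn))
  have hex : ∃ y ∈ R, S.card ≤ R.card * (S.filter fun p => lev S p = y).card := by
    by_contra hcon
    push Not at hcon
    have hne : R.Nonempty := card_pos.1 (by rw [hRc]; positivity)
    have h1 := card_eq_sum_card_fiberwise (f := lev S) (t := R) (s := S) hmap
    have h2 : ∑ y ∈ R, R.card * (S.filter fun p => lev S p = y).card < ∑ y ∈ R, S.card :=
      sum_lt_sum_of_nonempty hne fun y hy => hcon y hy
    rw [← mul_sum, ← h1, sum_const, smul_eq_mul] at h2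
    exact lt_irrefl _ h2
  obtain ⟨⟨l1, l2, l3, l12, l13, l23⟩, _, hy⟩ := hex
  rw [hRc] at hy
  have key : ∀ p ∈ S.filter (fun p => lev S p = (l1, l2, l3, l12, l13, l23)),
      Nat.log 2 (dg p1 S (p1 p)) = l1 ∧ Nat.log 2 (dg p2 S (p2 p)) = l2 ∧
      Nat.log 2 (dg p3 S (p3 p)) = l3 ∧ Nat.log 2 (dg p12 S (p12 p)) = l12 ∧
      Nat.log 2 (dg p13 S (p13 p)) = l13 ∧ Nat.log 2 (dg p23 S (p23 p)) = l23 := by
    intro p hp
    have h1 := (mem_filter.1 hp).2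
    simpa [lev, Prod.mk.injEq] using h1
  exact ⟨S.filter (fun p => lev S p = (l1, l2, l3, l12, l13, l23)), l1, l2, l3, l12, l13, l23,
    filter_subset _ _, hy, fun p hp => (key p hp).1, fun p hp => (key p hp).2.1,
    fun p hp => (key p hp).2.2.1, fun p hp => (key p hp).2.2.2.1, fun p hp => (key p hp).2.2.2.2.1,
    fun p hp => (key p hp).2.2.2.2.2⟩

/-- comparison of exponents -/
lemma pow_cmp {a b : ℕ} (h : 2 ^ a < 2 ^ b) : a < b :=
  (Nat.pow_lt_pow_iff_right (by norm_num : 1 < 2)).1 h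

/-- a cover by two images -/
lemma two_img {u t e f x y L b : ℕ} (hu : 0 < u) (hB : t ≤ 2 ^ b * u) (h1 : e * 2 ^ x ≤ t)
    (h2 : f * 2 ^ y ≤ t) (h : u ≤ e * f) (hL : u < 2 ^ (L + 1)) : x + y < 2 * b + L + 1 := by
  refine pow_cmp ?_
  have h3 : u * 2 ^ (x + y) ≤ u * (2 ^ (2 * b) * u) := by
    calc u * 2 ^ (x + y) ≤ (e * f) * 2 ^ (x + y) := Nat.mul_le_mul_right _ h
      _ = (e * 2 ^ x) * (f * 2 ^ y) := by rw [pow_add]; ring
      _ ≤ (2 ^ b * u) * (2 ^ b * u) := Nat.mul_le_mul (h1.trans hB) (h2.trans hB)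
      _ = u * (2 ^ (2 * b) * u) := by rw [two_mul b, pow_add]; ring
  calc 2 ^ (x + y) ≤ 2 ^ (2 * b) * u := Nat.le_of_mul_le_mul_left h3 hu
    _ < 2 ^ (2 * b) * 2 ^ (L + 1) := Nat.mul_lt_mul_of_pos_left hL (by positivity)
    _ = 2 ^ (2 * b + L + 1) := by rw [← pow_add]; rfl

/-- a cover by three images -/
lemma three_img {u t e f g x y z L b : ℕ} (hu : 0 < u) (hB : t ≤ 2 ^ b * u) (h1 : e * 2 ^ x ≤ t)
    (h2 : f * 2 ^ y ≤ t) (h3 : g * 2 ^ z ≤ t) (h : u ≤ e * (f * g)) (hL : u < 2 ^ (L + 1)) :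
    x + y + z < 3 * b + 2 * L + 2 := by
  refine pow_cmp ?_
  have h4 : u * 2 ^ (x + y + z) ≤ u * (2 ^ (3 * b) * (u * u)) := by
    calc u * 2 ^ (x + y + z) ≤ (e * (f * g)) * 2 ^ (x + y + z) := Nat.mul_le_mul_right _ h
      _ = (e * 2 ^ x) * ((f * 2 ^ y) * (g * 2 ^ z)) := by rw [pow_add, pow_add]; ring
      _ ≤ (2 ^ b * u) * ((2 ^ b * u) * (2 ^ b * u)) :=
        Nat.mul_le_mul (h1.trans hB) (Nat.mul_le_mul (h2.trans hB) (h3.trans hB))
      _ = u * (2 ^ (3 * b) * (u * u)) := by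
        rw [show 3 * b = b + b + b by ring, pow_add, pow_add]; ring
  calc 2 ^ (x + y + z) ≤ 2 ^ (3 * b) * (u * u) := Nat.le_of_mul_le_mul_left h4 hu
    _ < 2 ^ (3 * b) * (2 ^ (L + 1) * 2 ^ (L + 1)) :=
      Nat.mul_lt_mul_of_pos_left (Nat.mul_lt_mul'' hL hL) (by positivity)
    _ = 2 ^ (3 * b + 2 * L + 2) := by rw [← pow_add, ← pow_add]; congr 1; ring

/-- the Loomis-Whitney inequality for the levels -/
lemma lw_img {u t e f g x y z L b : ℕ} (hu : 0 < u) (hB : t ≤ 2 ^ b * u) (h1 : e * 2 ^ x ≤ t)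
    (h2 : f * 2 ^ y ≤ t) (h3 : g * 2 ^ z ≤ t) (h : u ^ 2 ≤ e * (f * g)) (hL : u < 2 ^ (L + 1)) :
    x + y + z < 3 * b + L + 1 := by
  refine pow_cmp ?_
  have h4 : u ^ 2 * 2 ^ (x + y + z) ≤ u ^ 2 * (2 ^ (3 * b) * u) := by
    calc u ^ 2 * 2 ^ (x + y + z) ≤ (e * (f * g)) * 2 ^ (x + y + z) := Nat.mul_le_mul_right _ h
      _ = (e * 2 ^ x) * ((f * 2 ^ y) * (g * 2 ^ z)) := by rw [pow_add, pow_add]; ring
      _ ≤ (2 ^ b * u) * ((2 ^ b * u) * (2 ^ b * u)) :=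
        Nat.mul_le_mul (h1.trans hB) (Nat.mul_le_mul (h2.trans hB) (h3.trans hB))
      _ = u ^ 2 * (2 ^ (3 * b) * u) := by
        rw [show 3 * b = b + b + b by ring, pow_add, pow_add]; ring
  calc 2 ^ (x + y + z) ≤ 2 ^ (3 * b) * u := Nat.le_of_mul_le_mul_left h4 (by positivity)
    _ < 2 ^ (3 * b) * 2 ^ (L + 1) := Nat.mul_lt_mul_of_pos_left hL (by positivity)
    _ = 2 ^ (3 * b + L + 1) := by rw [← pow_add]; rfl

/-- the number of the vertices in a class -/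
lemma vert {S T : Finset (V n)} (h : T ⊆ S) (π : V n → Fin n) {l L : ℕ}
    (hl : ∀ p ∈ T, Nat.log 2 (dg π S (π p)) = l) (hL : 2 ^ L ≤ T.card) : L ≤ bits n + l := by
  have hn : n < 2 ^ bits n := Nat.lt_pow_succ_log_self (by norm_num) n
  have h1 : (T.image π).card ≤ n := by
    have := card_le_univ (T.image π)
    rwa [Fintype.card_fin] at this
  have h2 := card_le_img π h hl
  have h3 : 2 ^ L < 2 ^ (bits n + l + 1) := by
    calc 2 ^ L ≤ T.card := hL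
      _ ≤ (T.image π).card * 2 ^ (l + 1) := h2
      _ ≤ n * 2 ^ (l + 1) := Nat.mul_le_mul_right _ h1
      _ < 2 ^ bits n * 2 ^ (l + 1) := Nat.mul_lt_mul_of_pos_right hn (by positivity)
      _ = 2 ^ (bits n + l + 1) := by rw [← pow_add]; rfl
  have := pow_cmp h3
  omega

/-- lower bounds for the size of the class -/
lemma low {t u b r m L : ℕ} (hb : 0 < b) (hr : 2 ^ r ≤ b) (h : t ≤ 8 * b ^ 6 * u)
    (h1 : 2 ^ (m + 50) * b ^ 30 ≤ t) (hL : u < 2 ^ (L + 1)) : m + 47 + 24 * r ≤ L := by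
  have h2 : b ^ 6 * (2 ^ (m + 50) * b ^ 24) ≤ b ^ 6 * (8 * u) := by
    calc b ^ 6 * (2 ^ (m + 50) * b ^ 24) = 2 ^ (m + 50) * b ^ 30 := by ring
      _ ≤ 8 * b ^ 6 * u := h1.trans h
      _ = b ^ 6 * (8 * u) := by ring
  have h3 : 2 ^ (m + 50) * b ^ 24 ≤ 8 * u := Nat.le_of_mul_le_mul_left h2 (by positivity)
  have h4 : 2 ^ (m + 50 + 24 * r) < 2 ^ (L + 4) := by
    calc 2 ^ (m + 50 + 24 * r) = 2 ^ (m + 50) * (2 ^ r) ^ 24 := by
          rw [pow_add, ← pow_mul, mul_comm r 24]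
      _ ≤ 2 ^ (m + 50) * b ^ 24 := Nat.mul_le_mul_left _ (Nat.pow_le_pow_left hr 24)
      _ ≤ 8 * u := h3
      _ < 8 * 2 ^ (L + 1) := by omega
      _ = 2 ^ (L + 4) := by rw [pow_add, pow_add]; ring
  have := pow_cmp h4
  omega

theorem cls : P_CLS := by
  intro n k G hn hk ht
  classical
  obtain ⟨S, hS⟩ : ∃ S : Finset (V n), S = univ.filter fun p : V n =>
    G.Adj p.1 p.2.1 ∧ G.Adj p.2.1 p.2.2 ∧ G.Adj p.1 p.2.2 := ⟨_, rfl⟩
  have htri : tri G = S.card := by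
    unfold tri
    rw [Nat.card_eq_fintype_card, Fintype.card_subtype, hS]
  rw [htri] at hk ht
  obtain ⟨T, l1, l2, l3, l12, l13, l23, hTS, hcard, c1, c2, c3, c12, c13, c23⟩ := classes S
  obtain ⟨b, hb⟩ : ∃ b, b = bits n := ⟨_, rfl⟩
  have hb0 : 0 < b := by rw [hb]; exact Nat.succ_pos _
  rw [← hb] at hk ht hcard
  obtain ⟨r, hr⟩ : ∃ r, r = Nat.log 2 b := ⟨_, rfl⟩
  have hr1 : 2 ^ r ≤ b := by rw [hr]; exact Nat.pow_log_le_self 2 hb0.ne'
  have hr2 : b < 2 ^ (r + 1) := by rw [hr]; exact Nat.lt_pow_succ_log_self (by norm_num) b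
  obtain ⟨u, hu⟩ : ∃ u, u = T.card := ⟨_, rfl⟩
  rw [← hu] at hcard
  have hn0 : 0 < n := by omega
  have hS0 : 0 < S.card := lt_of_lt_of_le (by positivity) ht
  have hu0 : 0 < u := by
    rcases Nat.eq_zero_or_pos u with h | h
    · rw [h, mul_zero] at hcard; omega
    · exact h
  obtain ⟨L, hL⟩ : ∃ L, L = Nat.log 2 u := ⟨_, rfl⟩
  have hL1 : 2 ^ L ≤ u := by rw [hL]; exact Nat.pow_log_le_self 2 hu0.ne'
  have hL2 : u < 2 ^ (L + 1) := by rw [hL]; exact Nat.lt_pow_succ_log_self (by norm_num) u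
  have hB : S.card ≤ 2 ^ (9 + 6 * r) * u := by
    refine hcard.trans (Nat.mul_le_mul_right _ ?_)
    calc 8 * b ^ 6 ≤ 8 * (2 ^ (r + 1)) ^ 6 := Nat.mul_le_mul_left _ (Nat.pow_le_pow_left hr2.le 6)
      _ = 2 ^ (9 + 6 * r) := by rw [← pow_mul, show (r + 1) * 6 = 6 + 6 * r by ring, pow_add, pow_add]; ring
  -- `r ≥ 5`
  have hr5 : 5 ≤ r := by
    have h1 : S.card ≤ n * n * n := by
      have := card_le_univ S
      rw [Fintype.card_prod, Fintype.card_prod, Fintype.card_fin, ← mul_assoc] at this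
      exact this
    have h2 : n ^ 2 * 2 ^ 50 ≤ n ^ 2 * n := by
      calc n ^ 2 * 2 ^ 50 = 2 ^ 50 * 1 * n ^ 2 := by ring
        _ ≤ 2 ^ 50 * b ^ 30 * n ^ 2 :=
          Nat.mul_le_mul_right _ (Nat.mul_le_mul_left _ (Nat.one_le_pow _ _ hb0))
        _ ≤ n ^ 2 * n := (ht.trans h1).trans (le_of_eq (by ring))
    have h3 : 2 ^ 50 ≤ n := Nat.le_of_mul_le_mul_left h2 (by positivity)
    have h4 : n < 2 ^ b := by rw [hb]; exact Nat.lt_pow_succ_log_self (by norm_num) n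
    have h5 : 50 < b := pow_cmp (h3.trans_lt h4)
    by_contra hcon
    have h6 : 2 ^ (r + 1) ≤ 2 ^ 5 := Nat.pow_le_pow_right (by norm_num) (by omega)
    norm_num at h6
    omega
  have hTne : T.Nonempty := card_pos.1 (by rw [← hu]; exact hu0)
  obtain ⟨p, hp⟩ := hTne
  have hkL : k + 47 + 24 * r ≤ L := low hb0 hr1 hcard hk hL2
  have hnn : n ≤ n ^ 2 := by rw [sq]; exact Nat.le_mul_self n
  have hlow : ∀ (l x : ℕ), Nat.log 2 x = l → x ≠ 0 → x ≤ n ^ 2 → l + 47 + 24 * r ≤ L := by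
    intro l x hl hx hxn
    refine low hb0 hr1 hcard ?_ hL2
    refine le_trans ?_ ht
    have h1 : 2 ^ l ≤ n ^ 2 := by
      rw [← hl]; exact (Nat.pow_log_le_self 2 hx).trans hxn
    calc 2 ^ (l + 50) * b ^ 30 = 2 ^ 50 * b ^ 30 * 2 ^ l := by rw [pow_add]; ring
      _ ≤ 2 ^ 50 * b ^ 30 * n ^ 2 := Nat.mul_le_mul_left _ h1
  have e1 : Fintype.card (Fin n × Fin n) = n ^ 2 := by simp [sq]
  have e2 : Fintype.card (Fin n) ≤ n ^ 2 := by rw [Fintype.card_fin]; exact hnn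
  have m1 := hlow l1 _ (c1 p hp) (dg_ne _ (hTS hp)) ((dg_le_card p1 p23 i1_23 S _).trans e1.le)
  have m2 := hlow l2 _ (c2 p hp) (dg_ne _ (hTS hp)) ((dg_le_card p2 p13 i2_13 S _).trans e1.le)
  have m3 := hlow l3 _ (c3 p hp) (dg_ne _ (hTS hp)) ((dg_le_card p3 p12 i3_12 S _).trans e1.le)
  have m12 := hlow l12 _ (c12 p hp) (dg_ne _ (hTS hp))
    ((dg_le_card p12 p3 (fun p q h h' => i3_12 p q h' h) S _).trans e2)
  have m13 := hlow l13 _ (c13 p hp) (dg_ne _ (hTS hp))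
    ((dg_le_card p13 p2 (fun p q h h' => i2_13 p q h' h) S _).trans e2)
  have m23 := hlow l23 _ (c23 p hp) (dg_ne _ (hTS hp))
    ((dg_le_card p23 p1 (fun p q h h' => i1_23 p q h' h) S _).trans e2)
  have f1 := img_mul p1 hTS c1
  have f2 := img_mul p2 hTS c2
  have f3 := img_mul p3 hTS c3
  have f12 := img_mul p12 hTS c12
  have f13 := img_mul p13 hTS c13
  have f23 := img_mul p23 hTS c23
  have g1 := pair_le p1 p23 i1_23 T
  have g2 := pair_le p2 p13 i2_13 T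
  have g3 := pair_le p3 p12 i3_12 T
  have g4 := pair_le p12 p13 i12_13 T
  have g5 := pair_le p12 p23 i12_23 T
  have g6 := pair_le p13 p23 i13_23 T
  have g7 : T.card ≤ (T.image p1).card * ((T.image p2).card * (T.image p3).card) := by
    refine g1.trans (Nat.mul_le_mul_left _ ?_)
    rw [← card_product]
    refine card_le_card fun y hy => ?_
    obtain ⟨q, hq, rfl⟩ := mem_image.1 hy
    exact mem_product.2 ⟨mem_image.2 ⟨q, hq, rfl⟩, mem_image.2 ⟨q, hq, rfl⟩⟩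
  have g8 : T.card ^ 2 ≤ (T.image p12).card * ((T.image p13).card * (T.image p23).card) := lw T
  rw [← hu] at g1 g2 g3 g4 g5 g6 g7 g8
  have q1 := two_img hu0 hB f1 f23 g1 hL2
  have q2 := two_img hu0 hB f2 f13 g2 hL2
  have q3 := two_img hu0 hB f3 f12 g3 hL2
  have q4 := two_img hu0 hB f12 f13 g4 hL2
  have q5 := two_img hu0 hB f12 f23 g5 hL2
  have q6 := two_img hu0 hB f13 f23 g6 hL2
  have q7 := three_img hu0 hB f1 f2 f3 g7 hL2
  have q8 := lw_img hu0 hB f12 f13 f23 g8 hL2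
  have v1 := vert hTS p1 c1 (by rw [← hu]; exact hL1)
  have v2 := vert hTS p2 c2 (by rw [← hu]; exact hL1)
  have v3 := vert hTS p3 c3 (by rw [← hu]; exact hL1)
  obtain ⟨s1, s2, s3, hsum, w1, w2, w3, w12, w13, w23⟩ := shape k (L - 10 - l1) (L - 10 - l2)
    (L - 10 - l3) (L - 10 - l12) (L - 10 - l13) (L - 10 - l23) (by omega) (by omega) (by omega)
    (by omega) (by omega) (by omega) (by omega) (by omega)
  have hadj : ∀ p ∈ T, G.Adj p.1 p.2.1 ∧ G.Adj p.2.1 p.2.2 ∧ G.Adj p.1 p.2.2 := by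
    intro q hq
    have h1 := hTS hq
    rw [hS] at h1
    exact (mem_filter.1 h1).2
  have fin : ∀ (x l s : ℕ), x ≤ 2 ^ (l + 1) → s ≤ L - 10 - l → l + 10 ≤ L →
      512 * x * 2 ^ s ≤ T.card := by
    intro x l s hx hs hl
    rw [← hu]
    calc 512 * x * 2 ^ s ≤ 512 * 2 ^ (l + 1) * 2 ^ s :=
          Nat.mul_le_mul_right _ (Nat.mul_le_mul_left _ hx)
      _ = 2 ^ (10 + l + s) := by rw [pow_add, pow_add, pow_add]; ring
      _ ≤ 2 ^ L := Nat.pow_le_pow_right (by norm_num) (by omega)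
      _ ≤ u := hL1
  refine ⟨T, s1, s2, s3, hsum, ⟨by omega, by omega, by omega, ?_, ?_, ?_, ?_, ?_, ?_, ?_, ?_⟩, hadj⟩
  · intro q hq
    obtain ⟨h1, h2, h3⟩ := hadj q hq
    exact ⟨h1.ne, h2.ne, h3.ne⟩
  · rw [hsum, ← hu]
    calc 1024 * 2 ^ k = 2 ^ (10 + k) := by rw [pow_add]; rfl
      _ ≤ 2 ^ L := Nat.pow_le_pow_right (by norm_num) (by omega)
      _ ≤ u := hL1
  · intro x y
    refine fin _ l12 _ ?_ w12 (by omega)
    refine le_trans (le_of_eq ?_) (dg_le p12 hTS c12 (x, y))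
    unfold dg p12
    simp only [Prod.mk.injEq]
  · intro x z
    refine fin _ l13 _ ?_ w13 (by omega)
    refine le_trans (le_of_eq ?_) (dg_le p13 hTS c13 (x, z))
    unfold dg p13
    simp only [Prod.mk.injEq]
  · intro y z
    refine fin _ l23 _ ?_ w23 (by omega)
    refine le_trans (le_of_eq ?_) (dg_le p23 hTS c23 (y, z))
    unfold dg p23
    simp only [Prod.mk.injEq]
  · intro x
    exact fin _ l1 _ (dg_le p1 hTS c1 x) w1 (by omega)
  · intro y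
    exact fin _ l2 _ (dg_le p2 hTS c2 y) w2 (by omega)
  · intro z
    exact fin _ l3 _ (dg_le p3 hTS c3 z) w3 (by omega)

end main

end Pool.Agent.W2helper15.ET
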