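import Pool.Agent.W2helper22.ETS.Stm
import Pool.Agent.W2helper15.ET.Cls

set_option autoImplicit false

/-!
# Piece CLSS of project ETS: a class of triangles and a greedy shape
-/

namespace Pool.Agent.W2helper15.ET

open Finset Pool.Agent.W2helper22.SM Pool.Agent.W2helper22.ETS
open Pool.Agent.W2helper22.ET (tri)

/-- submodularity -/
lemma submod {X Y Z : Type*} [DecidableEq X] [DecidableEq Y] [DecidableEq Z]
    (T : Finset (X × Y × Z)) (D : ℕ) (hD : ∀ x, (T.filter fun p => p.1 = x).card ≤ D) :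
    T.card ^ 2 ≤ D * ((T.image fun p => (p.1, p.2.1)).card *
      (T.image fun p => (p.1, p.2.2)).card) := by
  obtain ⟨S, hS⟩ : ∃ S, S = T.image fun p => p.1 := ⟨_, rfl⟩
  obtain ⟨E, hE⟩ : ∃ E, E = T.image fun p => (p.1, p.2.1) := ⟨_, rfl⟩
  obtain ⟨F, hF⟩ : ∃ F, F = T.image fun p => (p.1, p.2.2) := ⟨_, rfl⟩
  have h1 : T.card = ∑ x ∈ S, (T.filter fun p => p.1 = x).card := by
    rw [hS]; exact card_eq_sum_card_image (fun p : X × Y × Z => p.1) T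
  have h2 : E.card = ∑ x ∈ S, (E.filter fun e => e.1 = x).card := by
    refine card_eq_sum_card_fiberwise fun e he => ?_
    rw [hE] at he
    obtain ⟨p, hp, rfl⟩ := mem_image.1 (mem_coe.1 he)
    rw [hS]
    exact mem_coe.2 (mem_image.2 ⟨p, hp, rfl⟩)
  have h3 : F.card = ∑ x ∈ S, (F.filter fun e => e.1 = x).card := by
    refine card_eq_sum_card_fiberwise fun e he => ?_
    rw [hF] at he
    obtain ⟨p, hp, rfl⟩ := mem_image.1 (mem_coe.1 he)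
    rw [hS]
    exact mem_coe.2 (mem_image.2 ⟨p, hp, rfl⟩)
  have h4 : ∀ x, (T.filter fun p => p.1 = x).card ≤
      (E.filter fun e => e.1 = x).card * (F.filter fun e => e.1 = x).card := by
    intro x
    rw [← card_product]
    refine card_le_card_of_injOn (fun p => ((p.1, p.2.1), (p.1, p.2.2))) ?_ ?_
    · intro p hp
      obtain ⟨hp1, hp2⟩ := mem_filter.1 (mem_coe.1 hp)
      refine mem_coe.2 (mem_product.2 ⟨mem_filter.2 ⟨?_, hp2⟩, mem_filter.2 ⟨?_, hp2⟩⟩)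
      · rw [hE]; exact mem_image.2 ⟨p, hp1, rfl⟩
      · rw [hF]; exact mem_image.2 ⟨p, hp1, rfl⟩
    · intro p _ q _ hpq
      simp only [Prod.mk.injEq] at hpq
      exact Prod.ext hpq.1.1 (Prod.ext hpq.1.2 hpq.2.2)
  rw [← hE, ← hF]
  calc T.card ^ 2 = (∑ x ∈ S, (T.filter fun p => p.1 = x).card) ^ 2 := by rw [← h1]
    _ ≤ (∑ x ∈ S, D * (E.filter fun e => e.1 = x).card) *
        ∑ x ∈ S, (F.filter fun e => e.1 = x).card := by
      refine sum_sq_le_sum_mul_sum_of_sq_le_mul S (fun _ _ => Nat.zero_le _)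
        (fun _ _ => Nat.zero_le _) fun x _ => ?_
      rw [sq, mul_assoc]
      exact Nat.mul_le_mul (hD x) (h4 x)
    _ = D * (E.card * F.card) := by rw [← mul_sum, ← h2, ← h3, mul_assoc]

/-- the greedy shape -/
lemma greedy (k L b c l1 l2 l3 l12 l13 l23 : ℕ) (hc : 2 * b + 12 ≤ c) (hL : k + 3 * c ≤ L)
    (m1 : l12 ≤ l1) (m3 : l13 ≤ l1) (m4 : l13 ≤ l3) (m5 : l23 ≤ l2)
    (m6 : l23 ≤ l3) (h1 : l1 + l2 ≤ 2 * b + L + 1 + l12) (h2 : l12 + l3 ≤ 2 * b + L)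
    (h3 : l1 + l23 ≤ 2 * b + L) (h4 : l12 + l13 ≤ l1 + 1 + 2 * b) :
    ∃ s1 s2 s3 : ℕ, s1 + s2 + s3 = k ∧
      (0 < s1 → s1 + 10 + l1 ≤ L) ∧ (0 < s2 → s2 + 10 + l2 ≤ L) ∧ (0 < s3 → s3 + 10 + l3 ≤ L) ∧
      (0 < s1 + s2 → s1 + s2 + 10 + l12 ≤ L) ∧ (0 < s1 + s3 → s1 + s3 + 10 + l13 ≤ L) ∧
      (0 < s2 + s3 → s2 + s3 + 10 + l23 ≤ L) := by
  obtain ⟨r1, hr1⟩ : ∃ r1, r1 = L - l1 - c := ⟨_, rfl⟩
  obtain ⟨r2, hr2⟩ : ∃ r2, r2 = l1 - l12 - c := ⟨_, rfl⟩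
  obtain ⟨r3, hr3⟩ : ∃ r3, r3 = l12 - c := ⟨_, rfl⟩
  obtain ⟨s1, hs1⟩ : ∃ s1, s1 = min r1 k := ⟨_, rfl⟩
  obtain ⟨s2, hs2⟩ : ∃ s2, s2 = min r2 (k - s1) := ⟨_, rfl⟩
  have e1 : s1 ≤ r1 := by omega
  have e2 : s2 ≤ r2 := by omega
  have e3 : k - s1 - s2 ≤ r3 := by omega
  have e4 : s1 + s2 + (k - s1 - s2) = k := by omega
  obtain ⟨s3, hs3⟩ : ∃ s3, s3 = k - s1 - s2 := ⟨_, rfl⟩
  rw [← hs3] at e3 e4
  refine ⟨s1, s2, s3, e4, ?_, ?_, ?_, ?_, ?_, ?_⟩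
  · intro h; omega
  · intro h; omega
  · intro h; omega
  · intro h; omega
  · intro h; omega
  · intro h; omega

/-- submodularity for the levels -/
lemma submod_img {u t e f x y l b : ℕ} (hu : 0 < u) (hB : t ≤ 2 ^ b * u) (h1 : e * 2 ^ x ≤ t)
    (h2 : f * 2 ^ y ≤ t) (h : u ^ 2 ≤ 2 ^ (l + 1) * (e * f)) : x + y ≤ l + 1 + 2 * b := by
  have h4 : u ^ 2 * 2 ^ (x + y) ≤ u ^ 2 * 2 ^ (l + 1 + 2 * b) := by
    calc u ^ 2 * 2 ^ (x + y) ≤ (2 ^ (l + 1) * (e * f)) * 2 ^ (x + y) := Nat.mul_le_mul_right _ h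
      _ = 2 ^ (l + 1) * ((e * 2 ^ x) * (f * 2 ^ y)) := by rw [pow_add 2 x y]; ring
      _ ≤ 2 ^ (l + 1) * ((2 ^ b * u) * (2 ^ b * u)) :=
        Nat.mul_le_mul_left _ (Nat.mul_le_mul (h1.trans hB) (h2.trans hB))
      _ = u ^ 2 * 2 ^ (l + 1 + 2 * b) := by rw [pow_add 2 (l + 1), two_mul, pow_add 2 b b]; ring
  have h5 := Nat.le_of_mul_le_mul_left h4 (by positivity)
  exact (Nat.pow_le_pow_iff_right (by norm_num : 1 < 2)).1 h5

/-- subadditivity for the levels -/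
lemma subadd_img {u t e f g x y z L b : ℕ} (hu : 0 < u) (hB : t ≤ 2 ^ b * u) (h1 : e * 2 ^ x ≤ t)
    (h2 : f * 2 ^ y ≤ t) (h3 : u ≤ g * 2 ^ (z + 1)) (h : g ≤ e * f) (hL : u < 2 ^ (L + 1)) :
    x + y ≤ 2 * b + L + 1 + z := by
  have h4 : u * 2 ^ (x + y) ≤ u * (2 ^ (2 * b + z + 1) * u) := by
    calc u * 2 ^ (x + y) ≤ ((e * f) * 2 ^ (z + 1)) * 2 ^ (x + y) :=
          Nat.mul_le_mul_right _ (h3.trans (Nat.mul_le_mul_right _ h))
      _ = (e * 2 ^ x) * (f * 2 ^ y) * 2 ^ (z + 1) := by rw [pow_add 2 x y]; ring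
      _ ≤ (2 ^ b * u) * (2 ^ b * u) * 2 ^ (z + 1) :=
        Nat.mul_le_mul_right _ (Nat.mul_le_mul (h1.trans hB) (h2.trans hB))
      _ = u * (2 ^ (2 * b + z + 1) * u) := by
        rw [show 2 * b + z + 1 = b + b + (z + 1) by ring, pow_add 2 (b + b), pow_add 2 b b]; ring
  have h5 : 2 ^ (x + y) < 2 ^ (2 * b + z + 1 + (L + 1)) := by
    calc 2 ^ (x + y) ≤ 2 ^ (2 * b + z + 1) * u := Nat.le_of_mul_le_mul_left h4 hu
      _ < 2 ^ (2 * b + z + 1) * 2 ^ (L + 1) := Nat.mul_lt_mul_of_pos_left hL (by positivity)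
      _ = 2 ^ (2 * b + z + 1 + (L + 1)) := by rw [← pow_add]
  have := pow_cmp h5
  omega

lemma dg_mono {n : ℕ} {α β : Type*} [DecidableEq α] [DecidableEq β] (π : V n → α) (π' : V n → β)
    (h : ∀ p q, π p = π q → π' p = π' q) (S : Finset (V n)) (p : V n) :
    dg π S (π p) ≤ dg π' S (π' p) := by
  refine card_le_card fun q hq => ?_
  obtain ⟨h1, h2⟩ := mem_filter.1 hq
  exact mem_filter.2 ⟨h1, h q p h2⟩

theorem clss : P_CLSS := by
  intro n k G hn hk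
  classical
  obtain ⟨S, hS⟩ : ∃ S : Finset (V n), S = univ.filter fun p : V n =>
    G.Adj p.1 p.2.1 ∧ G.Adj p.2.1 p.2.2 ∧ G.Adj p.1 p.2.2 := ⟨_, rfl⟩
  have htri : tri G = S.card := by
    unfold tri
    rw [Nat.card_eq_fintype_card, Fintype.card_subtype, hS]
  rw [htri] at hk
  obtain ⟨T, l1, l2, l3, l12, l13, l23, hTS, hcard, c1, c2, c3, c12, c13, c23⟩ := classes S
  obtain ⟨b, hb⟩ : ∃ b, b = bits n := ⟨_, rfl⟩
  have hb0 : 0 < b := by rw [hb]; exact Nat.succ_pos _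
  rw [← hb] at hk hcard
  obtain ⟨r, hr⟩ : ∃ r, r = Nat.log 2 b := ⟨_, rfl⟩
  have hr1 : 2 ^ r ≤ b := by rw [hr]; exact Nat.pow_log_le_self 2 hb0.ne'
  have hr2 : b < 2 ^ (r + 1) := by rw [hr]; exact Nat.lt_pow_succ_log_self (by norm_num) b
  obtain ⟨u, hu⟩ : ∃ u, u = T.card := ⟨_, rfl⟩
  rw [← hu] at hcard
  have hS0 : 0 < S.card := lt_of_lt_of_le (by positivity) hk
  have hu0 : 0 < u := by
    rcases Nat.eq_zero_or_pos u with h | h
    · rw [h, mul_zero] at hcard; omega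
    · exact h
  obtain ⟨L, hL⟩ : ∃ L, L = Nat.log 2 u := ⟨_, rfl⟩
  have hL1 : 2 ^ L ≤ u := by rw [hL]; exact Nat.pow_log_le_self 2 hu0.ne'
  have hL2 : u < 2 ^ (L + 1) := by rw [hL]; exact Nat.lt_pow_succ_log_self (by norm_num) u
  have hB : S.card ≤ 2 ^ (9 + 6 * r) * u := by
    refine hcard.trans (Nat.mul_le_mul_right _ ?_)
    calc 8 * b ^ 6 ≤ 8 * (2 ^ (r + 1)) ^ 6 := Nat.mul_le_mul_left _ (Nat.pow_le_pow_left hr2.le 6)
      _ = 2 ^ (9 + 6 * r) := by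
        rw [← pow_mul, show (r + 1) * 6 = 6 + 6 * r by ring, pow_add, pow_add]; ring
  have hTne : T.Nonempty := card_pos.1 (by rw [← hu]; exact hu0)
  have hTne' := hTne
  obtain ⟨p, hp⟩ := hTne
  have hkL : k + 250 + 70 * r + 47 + 24 * r ≤ L := by
    refine low hb0 hr1 hcard (le_trans ?_ hk) hL2
    calc 2 ^ (k + 250 + 70 * r + 50) * b ^ 30 = 2 ^ (k + 300) * ((2 ^ r) ^ 70 * b ^ 30) := by
          rw [← pow_mul, mul_comm r 70, ← mul_assoc, ← pow_add]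
          congr 2
          ring
      _ ≤ 2 ^ (k + 300) * (b ^ 70 * b ^ 30) :=
        Nat.mul_le_mul_left _ (Nat.mul_le_mul_right _ (Nat.pow_le_pow_left hr1 70))
      _ = 2 ^ (k + 300) * b ^ 100 := by rw [← pow_add]
  -- the levels
  have w1 : l12 ≤ l1 := by
    rw [← c12 p hp, ← c1 p hp]
    exact Nat.log_mono_right (dg_mono p12 p1 (fun a b h => (Prod.mk.inj h).1) S p)
  have w3 : l13 ≤ l1 := by
    rw [← c13 p hp, ← c1 p hp]
    exact Nat.log_mono_right (dg_mono p13 p1 (fun a b h => (Prod.mk.inj h).1) S p)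
  have w4 : l13 ≤ l3 := by
    rw [← c13 p hp, ← c3 p hp]
    exact Nat.log_mono_right (dg_mono p13 p3 (fun a b h => (Prod.mk.inj h).2) S p)
  have w5 : l23 ≤ l2 := by
    rw [← c23 p hp, ← c2 p hp]
    exact Nat.log_mono_right (dg_mono p23 p2 (fun a b h => (Prod.mk.inj h).1) S p)
  have w6 : l23 ≤ l3 := by
    rw [← c23 p hp, ← c3 p hp]
    exact Nat.log_mono_right (dg_mono p23 p3 (fun a b h => (Prod.mk.inj h).2) S p)
  have f1 := img_mul p1 hTS c1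
  have f2 := img_mul p2 hTS c2
  have f3 := img_mul p3 hTS c3
  have f12 := img_mul p12 hTS c12
  have f13 := img_mul p13 hTS c13
  have f23 := img_mul p23 hTS c23
  have g1 := pair_le p1 p23 i1_23 T
  have g3 := pair_le p3 p12 i3_12 T
  have g12 := card_le_img p12 hTS c12
  have g7 : (T.image p12).card ≤ (T.image p1).card * (T.image p2).card := by
    rw [← card_product]
    refine card_le_card fun y hy => ?_
    obtain ⟨q, hq, rfl⟩ := mem_image.1 hy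
    exact mem_product.2 ⟨mem_image.2 ⟨q, hq, rfl⟩, mem_image.2 ⟨q, hq, rfl⟩⟩
  have g8 : T.card ^ 2 ≤ 2 ^ (l1 + 1) * ((T.image p12).card * (T.image p13).card) :=
    submod T _ fun x => dg_le p1 hTS c1 x
  rw [← hu] at g1 g3 g12 g8
  have q1 := two_img hu0 hB f1 f23 g1 hL2
  have q3 := two_img hu0 hB f3 f12 g3 hL2
  have q4 := subadd_img hu0 hB f1 f2 g12 g7 hL2
  have q5 := submod_img hu0 hB f12 f13 g8
  have v1 := vert hTS p1 c1 (by rw [← hu]; exact hL1)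
  have v2 := vert hTS p2 c2 (by rw [← hu]; exact hL1)
  have v3 := vert hTS p3 c3 (by rw [← hu]; exact hL1)
  obtain ⟨s1, s2, s3, hsum, x1, x2, x3, x12, x13, x23⟩ := greedy k L (9 + 6 * r) (30 + 12 * r)
    l1 l2 l3 l12 l13 l23 (by omega) (by omega) w1 w3 w4 w5 w6 (by omega) (by omega) (by omega)
    (by omega)
  have hadj : ∀ p ∈ T, G.Adj p.1 p.2.1 ∧ G.Adj p.2.1 p.2.2 ∧ G.Adj p.1 p.2.2 := by
    intro q hq
    have h1 := hTS hq
    rw [hS] at h1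
    exact (mem_filter.1 h1).2
  have fin : ∀ (x l s : ℕ), x ≤ 2 ^ (l + 1) → s + 10 + l ≤ L → 512 * x * 2 ^ s ≤ T.card := by
    intro x l s hx hs
    rw [← hu]
    calc 512 * x * 2 ^ s ≤ 512 * 2 ^ (l + 1) * 2 ^ s :=
          Nat.mul_le_mul_right _ (Nat.mul_le_mul_left _ hx)
      _ = 2 ^ (s + 10 + l) := by rw [pow_add, pow_add, pow_add]; ring
      _ ≤ 2 ^ L := Nat.pow_le_pow_right (by norm_num) hs
      _ ≤ u := hL1
  have hbn : 0 < bits n := Nat.succ_pos _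
  refine ⟨T, s1, s2, s3, hsum, ⟨hTne', by omega, by omega, by omega, ?_, ?_, ?_, ?_, ?_, ?_, ?_,
    ?_⟩, hadj⟩
  · intro q hq
    obtain ⟨h1, h2, h3⟩ := hadj q hq
    exact ⟨h1.ne, h2.ne, h3.ne⟩
  · intro _
    rw [hsum, ← hu]
    calc 512 * 2 ^ k = 2 ^ (9 + k) := by rw [pow_add]; rfl
      _ ≤ 2 ^ L := Nat.pow_le_pow_right (by norm_num) (by omega)
      _ ≤ u := hL1
  · intro h x y
    refine fin _ l12 _ ?_ (x12 h)
    refine le_trans (le_of_eq ?_) (dg_le p12 hTS c12 (x, y))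
    unfold dg p12
    simp only [Prod.mk.injEq]
  · intro h x z
    refine fin _ l13 _ ?_ (x13 h)
    refine le_trans (le_of_eq ?_) (dg_le p13 hTS c13 (x, z))
    unfold dg p13
    simp only [Prod.mk.injEq]
  · intro h y z
    refine fin _ l23 _ ?_ (x23 h)
    refine le_trans (le_of_eq ?_) (dg_le p23 hTS c23 (y, z))
    unfold dg p23
    simp only [Prod.mk.injEq]
  · intro h x
    exact fin _ l1 _ (dg_le p1 hTS c1 x) (x1 h)
  · intro h y
    exact fin _ l2 _ (dg_le p2 hTS c2 y) (x2 h)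
  · intro h z
    exact fin _ l3 _ (dg_le p3 hTS c3 z) (x3 h)

end Pool.Agent.W2helper15.ET
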